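import Mathlib
import Pool.Agent.H79.WLP3

set_option autoImplicit false

namespace Pool.Agent.Results.MP_845d9e_ag.SocleFive

/-- The h-vector of a reduced arithmetically Gorenstein point set of socle degree at most five,
over any infinite field and in any codimension, is unimodal. -/
theorem result :
  ∀ (K : Type) [Field K] [Infinite K] (n : ℕ)
    (X : Finset (Fin (n+1) → K)) (c : Fin (n+1) → K)
    (I J : Ideal (MvPolynomial (Fin (n+1)) K))
    (H M : ℕ → Submodule K (MvPolynomial (Fin (n+1)) K)) (h : ℕ → ℕ) (e : ℕ),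
    e ≤ 5 →
    (∀ p ∈ X, ∑ j, c j * p j ≠ 0) →
    (∀ f : MvPolynomial (Fin (n+1)) K,
        f ∈ I ↔ ∀ p ∈ X, ∀ t : K, MvPolynomial.eval (t • p) f = 0) →
    J = I ⊔ Ideal.span
          ({∑ j, MvPolynomial.C (c j) * MvPolynomial.X j} :
            Set (MvPolynomial (Fin (n+1)) K)) →
    (∃ g : MvPolynomial (Fin (n+1)) K, g.IsHomogeneous e ∧ g ∉ J ∧
        (∀ j, MvPolynomial.X j * g ∈ J) ∧
        ∀ f : MvPolynomial (Fin (n+1)) K, (∀ j, MvPolynomial.X j * f ∈ J) →
          ∃ a : K, f - MvPolynomial.C a * g ∈ J) →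
    (∀ i (f : MvPolynomial (Fin (n+1)) K), f ∈ H i ↔ f.IsHomogeneous i) →
    (∀ i (f : MvPolynomial (Fin (n+1)) K), f ∈ M i ↔ (f.IsHomogeneous i ∧ f ∈ J)) →
    (∀ i, h i = Module.finrank K ↥(H i) - Module.finrank K ↥(M i)) →
    ∃ m : ℕ, (∀ i j, i ≤ j → j ≤ m → h i ≤ h j) ∧ (∀ i j, m ≤ i → i ≤ j → h j ≤ h i) := by
  intro K _ _ n Z c I J H M h e he hc hI hJ ⟨g, hg, hg1, _, hg2⟩ hH hM hh
  subst hJ
  have key := Pool.Agent.H79.WLP.hvec Z c I H M h hc hI g e hg hg1 hg2 hH hM hh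
  have main : ∀ m : ℕ, (∀ d, d < m → h d ≤ h (d + 1)) → (∀ d, m ≤ d → h (d + 1) ≤ h d) →
      ∃ m : ℕ, (∀ i j, i ≤ j → j ≤ m → h i ≤ h j) ∧ (∀ i j, m ≤ i → i ≤ j → h j ≤ h i) := by
    intro m h1 h2
    refine ⟨m, fun i j hij hj => ?_, fun i j hi hij => ?_⟩
    · induction j, hij using Nat.le_induction with
      | base => exact le_rfl
      | succ j hij ih => exact (ih (by omega)).trans (h1 j (by omega))
    · induction j, hij using Nat.le_induction with
      | base => exact le_rfl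
      | succ j hij ih => exact (h2 j (by omega)).trans ih
  by_cases h5 : e = 5 ∧ h 2 ≤ h 3
  · refine main 3 (fun d hd => ?_) fun d hd => (key d).2 (by omega) (by omega)
    by_cases h2 : d = 2
    · rw [h2]; exact h5.2
    · exact (key d).1 (by omega) (by omega)
  · refine main (min 2 ((e + 1) / 2)) (fun d hd => (key d).1 (by omega) (by omega))
      fun d hd => ?_
    by_cases h2 : e = 5 ∧ d = 2
    · rw [h2.2]; exact (not_le.1 (not_and.1 h5 h2.1)).le
    · exact (key d).2 (by omega) (by omega)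

end Pool.Agent.Results.MP_845d9e_ag.SocleFive
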